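import Mathlib

/-!
Row NUZ of the board exh (statement: `Pool.Agent.H18.XX.T_NUZ`): numbers.
-/

set_option autoImplicit false

namespace Pool.Agent.H68.XX

theorem pf_NUZ : ∃ n₀, ∀ n ≥ n₀, ∀ L j : ℕ, L = Nat.log 2 n → j = L ^ 2 / 16 →
  (2 * (4 * j + 9) + 1) * 4 ^ (4 * j + 9) * 2 ^ L ^ 2 ≤ 2 ^ (2 * L ^ 2) ∧
  2 ^ (3 * j + 5) * ((2 * (4 * j + 9) + 1) * 4 ^ (4 * j + 9) * 2 ^ L ^ 2) ≤ 2 ^ (2 * L ^ 2) ∧
  ((2 ^ (3 * j + 5) : ℕ) : ℝ) * (1 / 2) ^ (4 * j + 9) ≤ (1 / 2) ^ j / 4 ∧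
  2 * (32 / ((1 / 2 : ℝ) ^ j) ^ 2 * (1 / 2) ^ (n / 3) +
      2 / (1 / 2) ^ j * (1 / ((2 ^ (3 * j + 5) : ℕ) : ℝ) + 2 * (1 / 2) ^ (n / 3))) +
      (36 / ((1 / 2 : ℝ) ^ j) ^ 2 + 4 / (1 / 2) ^ j) * (1 / 2) ^ (L + 18) ^ 3 ≤
    (1 / 2) ^ (L ^ 2 / 8) := by
  refine ⟨2 ^ 16, ?_⟩
  intro n hn L j hL hj
  have hn0 : n ≠ 0 := by
    intro h
    rw [h] at hn
    norm_num at hn
  have hL16 : 16 ≤ L := by
    rw [hL]
    exact Nat.le_log_of_pow_le (by norm_num) hn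
  have hLn : 2 ^ L ≤ n := by
    rw [hL]
    exact Nat.pow_log_le_self 2 hn0
  have hLL : L ^ 2 ≤ 2 ^ L := by
    have key : ∀ k : ℕ, (k + 4) ^ 2 ≤ 2 ^ (k + 4) := by
      intro k
      induction k with
      | zero => norm_num
      | succ k ih =>
        have h0 : (k + 1 + 4) ^ 2 + (k ^ 2 + 6 * k + 7) = 2 * (k + 4) ^ 2 := by ring
        have : (k + 1 + 4) ^ 2 ≤ 2 * (k + 4) ^ 2 := by omega
        calc (k + 1 + 4) ^ 2 ≤ 2 * (k + 4) ^ 2 := this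
          _ ≤ 2 * 2 ^ (k + 4) := Nat.mul_le_mul_left 2 ih
          _ = 2 ^ (k + 1 + 4) := by ring
    obtain ⟨k, rfl⟩ : ∃ k, L = k + 4 := ⟨L - 4, by omega⟩
    exact key k
  have hL2 : 256 ≤ L ^ 2 := by nlinarith
  have hj16 : 16 * j ≤ L ^ 2 := by
    rw [hj]
    omega
  have hj17 : L ^ 2 < 16 * j + 16 := by
    rw [hj]
    omega
  have hj2 : 8 * j + 19 ≤ 2 ^ (j + 5) := by
    have h1 : j + 1 ≤ 2 ^ j := Nat.lt_two_pow_self
    rw [pow_add]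
    omega
  have hn3 : 4 * j + 10 ≤ n / 3 := by
    have : L ^ 2 ≤ n := hLL.trans hLn
    omega
  have hL3 : 4 * j + 9 ≤ (L + 18) ^ 3 := by
    nlinarith [Nat.zero_le L]
  have h8 : L ^ 2 / 8 ≤ 2 * j + 1 := by omega
  -- the second bound
  have hb2 : 2 ^ (3 * j + 5) * ((2 * (4 * j + 9) + 1) * 4 ^ (4 * j + 9) * 2 ^ L ^ 2) ≤
      2 ^ (2 * L ^ 2) := by
    calc 2 ^ (3 * j + 5) * ((2 * (4 * j + 9) + 1) * 4 ^ (4 * j + 9) * 2 ^ L ^ 2)
        ≤ 2 ^ (3 * j + 5) * (2 ^ (j + 5) * 2 ^ (2 * (4 * j + 9)) * 2 ^ L ^ 2) := by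
          refine Nat.mul_le_mul_left _ (Nat.mul_le_mul_right _ (Nat.mul_le_mul ?_ ?_))
          · omega
          · rw [pow_mul]
            norm_num
      _ = 2 ^ (3 * j + 5 + (j + 5 + 2 * (4 * j + 9) + L ^ 2)) := by
          rw [pow_add, pow_add, pow_add]
          ring
      _ ≤ 2 ^ (2 * L ^ 2) := by
          refine Nat.pow_le_pow_right (by norm_num) ?_
          omega
  refine ⟨?_, hb2, ?_, ?_⟩
  · refine le_trans ?_ hb2
    exact Nat.le_mul_of_pos_left _ (by positivity)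
  · have e : ((2 ^ (3 * j + 5) : ℕ) : ℝ) * (1 / 2) ^ (4 * j + 9) = (1 / 2) ^ j * (1 / 2) ^ 4 := by
      push_cast
      rw [show 4 * j + 9 = (3 * j + 5) + (j + 4) by ring, pow_add (1 / 2 : ℝ), ← mul_assoc,
        ← mul_pow, show (2 : ℝ) * (1 / 2) = 1 by norm_num, one_pow, one_mul, pow_add]
    rw [e]
    have h0 : (0 : ℝ) < (1 / 2) ^ j := by positivity
    nlinarith
  · -- the third bound
    set a : ℝ := 2 ^ j with ha
    have ha1 : 1 ≤ a := one_le_pow₀ (by norm_num)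
    have ha0 : 0 < a := by linarith
    have hinv : (1 / 2 : ℝ) ^ j = a⁻¹ := by
      rw [ha, one_div, inv_pow]
    have hn3' : (1 / 2 : ℝ) ^ (n / 3) ≤ 1 / (1024 * a ^ 4) := by
      calc (1 / 2 : ℝ) ^ (n / 3) ≤ (1 / 2) ^ (4 * j + 10) :=
            pow_le_pow_of_le_one (by norm_num) (by norm_num) hn3
        _ = 1 / (1024 * a ^ 4) := by
            rw [ha, one_div_pow, pow_add, ← pow_mul, mul_comm j 4]
            norm_num
            ring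
    have hL3' : (1 / 2 : ℝ) ^ (L + 18) ^ 3 ≤ 1 / (512 * a ^ 4) := by
      calc (1 / 2 : ℝ) ^ (L + 18) ^ 3 ≤ (1 / 2) ^ (4 * j + 9) :=
            pow_le_pow_of_le_one (by norm_num) (by norm_num) hL3
        _ = 1 / (512 * a ^ 4) := by
            rw [ha, one_div_pow, pow_add, ← pow_mul, mul_comm j 4]
            norm_num
            ring
    have h8' : 1 / (2 * a ^ 2) ≤ (1 / 2 : ℝ) ^ (L ^ 2 / 8) := by
      calc 1 / (2 * a ^ 2) = (1 / 2 : ℝ) ^ (2 * j + 1) := by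
            rw [ha, one_div_pow, pow_add, ← pow_mul, mul_comm j 2]
            norm_num
            ring
        _ ≤ _ := pow_le_pow_of_le_one (by norm_num) (by norm_num) h8
    have h35 : ((2 ^ (3 * j + 5) : ℕ) : ℝ) = 32 * a ^ 3 := by
      push_cast
      rw [ha, pow_add, ← pow_mul, mul_comm j 3]
      norm_num
      ring
    rw [hinv, h35]
    refine le_trans ?_ h8'
    have e1 : 32 / (a⁻¹) ^ 2 = 32 * a ^ 2 := by
      rw [inv_pow, div_inv_eq_mul]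
    have e2 : 2 / a⁻¹ = 2 * a := div_inv_eq_mul _ _
    have e3 : 36 / (a⁻¹) ^ 2 = 36 * a ^ 2 := by
      rw [inv_pow, div_inv_eq_mul]
    have e4 : 4 / a⁻¹ = 4 * a := div_inv_eq_mul _ _
    rw [e1, e2, e3, e4]
    calc 2 * (32 * a ^ 2 * (1 / 2) ^ (n / 3) + 2 * a * (1 / (32 * a ^ 3) + 2 * (1 / 2) ^ (n / 3))) +
          (36 * a ^ 2 + 4 * a) * (1 / 2) ^ (L + 18) ^ 3
        ≤ 2 * (32 * a ^ 2 * (1 / (1024 * a ^ 4)) +
            2 * a * (1 / (32 * a ^ 3) + 2 * (1 / (1024 * a ^ 4)))) +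
          (36 * a ^ 2 + 4 * a) * (1 / (512 * a ^ 4)) := by gcongr
      _ = (64 / 1024 + 4 / 32 + 36 / 512) * (1 / a ^ 2) + (8 / 1024 + 4 / 512) * (1 / a ^ 3) := by
          field_simp
          ring
      _ ≤ (64 / 1024 + 4 / 32 + 36 / 512) * (1 / a ^ 2) + (8 / 1024 + 4 / 512) * (1 / a ^ 2) := by
          have : 1 / a ^ 3 ≤ 1 / a ^ 2 :=
            one_div_le_one_div_of_le (by positivity) (pow_le_pow_right₀ ha1 (by norm_num))
          linarith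
      _ ≤ 1 / (2 * a ^ 2) := by
          have h0 : 0 ≤ 1 / a ^ 2 := by positivity
          have e : 1 / (2 * a ^ 2) = 1 / 2 * (1 / a ^ 2) := by
            field_simp
          rw [e]
          linarith

end Pool.Agent.H68.XX
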